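import Mathlib

set_option maxRecDepth 100000

namespace Pool.Agent.H.MP_e15593_al

theorem sorted_le_iff (t : ℕ) : ∀ (l : List ℕ), l.Pairwise (· ≤ ·) → ∀ (i : ℕ) (hi : i < l.length),
    (l[i] ≤ t ↔ i < l.countP (fun x => decide (x ≤ t)))
  | [], _, i, hi => by simp at hi
  | a :: l, hl, i, hi => by
    rw [List.pairwise_cons] at hl
    by_cases ha : a ≤ t
    · cases i with
      | zero => simp [ha]
      | succ i =>
        have := sorted_le_iff t l hl.2 i (by simpa using hi)
        simp [ha, this]
    · have h0 : l.countP (fun x => decide (x ≤ t)) = 0 := by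
        rw [List.countP_eq_zero]
        intro x hx
        have := hl.1 x hx
        simp; omega
      have h1 : (a :: l).countP (fun x => decide (x ≤ t)) = 0 := by
        rw [List.countP_cons, h0]; simp [ha]
      rw [h1]
      cases i with
      | zero => simp [ha]
      | succ i =>
        have := hl.1 (l[i]'(by simpa using hi)) (List.getElem_mem _)
        simp; omega

theorem count_sort (G : Type*) [Group G] [Fintype G] (t : ℕ) :
    ((Finset.univ.val.map (fun g : G => orderOf g)).sort (· ≤ ·)).countP (fun x => decide (x ≤ t))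
      = (Finset.univ.filter (fun g : G => orderOf g ≤ t)).card := by
  have h := Multiset.coe_countP (fun x : ℕ => x ≤ t)
    ((Finset.univ.val.map (fun g : G => orderOf g)).sort (· ≤ ·))
  rw [Multiset.sort_eq] at h
  rw [← h, Multiset.countP_map]
  rfl

instance fact61 : Fact (Nat.Prime 61) := ⟨by norm_num⟩

/-- The affine group of the line over the field with 61 elements. -/
@[ext] structure F where
  b : ZMod 61
  a : (ZMod 61)ˣ

instance : Mul F := ⟨fun x y => ⟨x.b + x.a * y.b, x.a * y.a⟩⟩
instance : One F := ⟨⟨0, 1⟩⟩
instance : Inv F := ⟨fun x => ⟨-((x.a⁻¹ : (ZMod 61)ˣ) * x.b), x.a⁻¹⟩⟩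

@[simp] theorem mul_b (x y : F) : (x * y).b = x.b + x.a * y.b := rfl
@[simp] theorem mul_a (x y : F) : (x * y).a = x.a * y.a := rfl
@[simp] theorem one_b : (1 : F).b = 0 := rfl
@[simp] theorem one_a : (1 : F).a = 1 := rfl
@[simp] theorem inv_b (x : F) : (x⁻¹).b = -((x.a⁻¹ : (ZMod 61)ˣ) * x.b) := rfl
@[simp] theorem inv_a (x : F) : (x⁻¹).a = x.a⁻¹ := rfl

instance : Group F := Group.ofLeftAxioms
  (fun x y z => by
    apply F.ext
    · simp only [mul_b, mul_a, Units.val_mul]; ring
    · simp only [mul_a, mul_assoc])
  (fun x => by apply F.ext <;> simp)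
  (fun x => by
    apply F.ext
    · simp only [mul_b, inv_b, inv_a, one_b]; ring
    · simp)

def eqv : F ≃ ZMod 61 × (ZMod 61)ˣ where
  toFun x := (x.b, x.a)
  invFun x := ⟨x.1, x.2⟩
  left_inv _ := rfl
  right_inv _ := rfl

noncomputable instance : Fintype F := Fintype.ofEquiv _ eqv.symm

theorem cardF : Fintype.card F = 3660 := by
  rw [Fintype.card_congr eqv, Fintype.card_prod, ZMod.card, ZMod.card_units]

theorem pow_F (x : F) (n : ℕ) :
    (x ^ n).a = x.a ^ n ∧ (x ^ n).b = (∑ i ∈ Finset.range n, (x.a : ZMod 61) ^ i) * x.b := by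
  induction n with
  | zero => constructor <;> simp
  | succ n ih =>
    rw [pow_succ x n]
    constructor
    · rw [mul_a, ih.1, pow_succ]
    · rw [mul_b, ih.1, ih.2, Finset.sum_range_succ, Units.val_pow_eq_pow_val]; ring

theorem order_F (x : F) : orderOf x ≤ 61 := by
  by_cases h : x.a = 1
  · refine orderOf_le_of_pow_eq_one (by norm_num) ?_
    apply F.ext
    · rw [(pow_F x 61).2, h]
      have : (∑ i ∈ Finset.range 61, ((1 : (ZMod 61)ˣ) : ZMod 61) ^ i) = 0 := by
        simp only [Units.val_one, one_pow, Finset.sum_const, Finset.card_range, nsmul_eq_mul, mul_one]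
        exact ZMod.natCast_self 61
      rw [this, zero_mul, one_b]
    · rw [(pow_F x 61).1, h]; simp
  · have h60 : x.a ^ 60 = 1 := ZMod.units_pow_card_sub_one_eq_one 61 x.a
    refine le_trans (orderOf_le_of_pow_eq_one (n := 60) (by norm_num) ?_) (by norm_num)
    apply F.ext
    · rw [(pow_F x 60).2]
      have h1 : (x.a : ZMod 61) - 1 ≠ 0 := by
        intro h2
        apply h
        apply Units.ext
        rw [Units.val_one]; exact sub_eq_zero.mp h2
      have h2 := geom_sum_mul (x.a : ZMod 61) 60
      rw [← Units.val_pow_eq_pow_val, h60, Units.val_one, sub_self] at h2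
      rw [(mul_eq_zero.mp h2).resolve_right h1, zero_mul, one_b]
    · rw [(pow_F x 60).1, h60, one_a]

theorem count_F2 : 61 ≤ (Finset.univ.filter (fun g : F => orderOf g ≤ 2)).card := by
  have : (Finset.univ : Finset (ZMod 61)).card = 61 := by rw [Finset.card_univ, ZMod.card]
  rw [← this]
  refine Finset.card_le_card_of_injOn (fun b => (⟨b, -1⟩ : F)) ?_ ?_
  · intro b _
    simp only [Finset.coe_filter, Finset.mem_univ, true_and, Set.mem_setOf_eq]
    refine orderOf_le_of_pow_eq_one (by norm_num) ?_
    rw [pow_two]
    apply F.ext <;> simp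
  · intro b _ c _ h
    exact congrArg F.b h

theorem count_cmp (G : Type*) [Group G] [Fintype G] (hc : Fintype.card G = 3660)
    (h60 : (Finset.univ.filter (fun g : G => orderOf g ≤ 60)).card ≤ 60) (t : ℕ) :
    (Finset.univ.filter (fun g : G => orderOf g ≤ t)).card ≤
      (Finset.univ.filter (fun g : F => orderOf g ≤ t)).card := by
  rcases Nat.lt_or_ge t 1 with h | h
  · have : Finset.univ.filter (fun g : G => orderOf g ≤ t) = ∅ := by
      rw [Finset.filter_eq_empty_iff]
      intro g _
      have := orderOf_pos g
      omega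
    rw [this]; simp
  rcases Nat.lt_or_ge t 2 with h2 | h2
  · have h3 : (Finset.univ.filter (fun g : G => orderOf g ≤ t)).card ≤ 1 := by
      rw [Finset.card_le_one]
      intro a ha b hb
      simp only [Finset.mem_filter, Finset.mem_univ, true_and] at ha hb
      have a0 := orderOf_pos a
      have b0 := orderOf_pos b
      rw [orderOf_eq_one_iff.mp (by omega : orderOf a = 1), orderOf_eq_one_iff.mp (by omega : orderOf b = 1)]
    refine le_trans h3 (Finset.card_pos.mpr ⟨1, ?_⟩)
    simp only [Finset.mem_filter, Finset.mem_univ, true_and, orderOf_one]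
    exact h
  rcases Nat.lt_or_ge t 61 with h3 | h3
  · have h4 : (Finset.univ.filter (fun g : G => orderOf g ≤ t)).card ≤
        (Finset.univ.filter (fun g : G => orderOf g ≤ 60)).card := by
      apply Finset.card_le_card
      intro g hg
      simp only [Finset.mem_filter, Finset.mem_univ, true_and] at hg ⊢
      omega
    have h5 : (Finset.univ.filter (fun g : F => orderOf g ≤ 2)).card ≤
        (Finset.univ.filter (fun g : F => orderOf g ≤ t)).card := by
      apply Finset.card_le_card
      intro g hg
      simp only [Finset.mem_filter, Finset.mem_univ, true_and] at hg ⊢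
      omega
    have := count_F2
    omega
  · have h4 : Finset.univ.filter (fun g : F => orderOf g ≤ t) = Finset.univ := by
      rw [Finset.filter_eq_self]
      intro g _
      have := order_F g
      omega
    rw [h4, Finset.card_univ, cardF, ← hc, ← Finset.card_univ]
    exact Finset.card_filter_le _ _

end Pool.Agent.H.MP_e15593_al
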