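import Mathlib

namespace Pool.Agent.H.MP_e15593_al

theorem solv1 (K : Type*) [Group K] [Finite K] (h : Squarefree (Nat.card K) ∨ Nat.card K = 4) :
    Group.IsSolvable K := by
  rcases h with h | h
  · haveI := IsZGroup.of_squarefree h
    infer_instance
  · haveI : Fact (Nat.Prime 2) := ⟨by norm_num⟩
    have hp : IsPGroup 2 K := IsPGroup.of_card (n := 2) (by rw [h]; norm_num)
    haveI := hp.isNilpotent
    infer_instance

theorem solv_dvd (K : Type*) [Group K] [Finite K] (m : ℕ) (h : Nat.card K ∣ m)
    (hm : m = 4 ∨ m = 5 ∨ m = 6 ∨ m = 61) : Group.IsSolvable K := by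
  apply solv1
  generalize Nat.card K = c at *
  rcases hm with rfl | rfl | rfl | rfl
  · have := Nat.le_of_dvd (by norm_num) h
    interval_cases c <;> first | (exfalso; revert h; decide) | (right; rfl) | (left; simp) | (left; exact Nat.prime_two.prime.squarefree)
  · left; exact (Nat.Prime.prime (by norm_num : Nat.Prime 5)).squarefree.squarefree_of_dvd h
  · left
    refine Squarefree.squarefree_of_dvd h ?_
    have : (6 : ℕ) = 2 * 3 := by norm_num
    rw [this, Nat.squarefree_mul (by norm_num)]
    exact ⟨Nat.prime_two.prime.squarefree, Nat.prime_three.prime.squarefree⟩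
  · left; exact (Nat.Prime.prime (by norm_num : Nat.Prime 61)).squarefree.squarefree_of_dvd h

theorem solv_act (K : Type*) [Group K] [Finite K] (H : Subgroup K) (hH : Group.IsSolvable H)
    (m : ℕ) (hm : m = 4 ∨ m = 5 ∨ m = 6 ∨ m = 61)
    (hd : ∀ r, r ∣ (H.index).factorial → r ∣ Nat.card K → r ∣ m) : Group.IsSolvable K := by
  classical
  let φ := MulAction.toPermHom K (K ⧸ H)
  have h1 : Nat.card φ.range ∣ (H.index).factorial := by
    have := Subgroup.card_subgroup_dvd_card φ.range
    rw [Nat.card_perm] at this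
    exact this
  have h2 : Nat.card φ.range ∣ Nat.card K :=
    Subgroup.card_dvd_of_surjective φ.rangeRestrict φ.rangeRestrict_surjective
  haveI : Group.IsSolvable φ.range := solv_dvd _ m (hd _ h1 h2) hm
  refine Group.isSolvable_of_ker_le_range H.subtype φ.rangeRestrict ?_
  rw [MonoidHom.ker_rangeRestrict, Subgroup.range_subtype, ← Subgroup.normalCore_eq_ker]
  exact H.normalCore_le

theorem sqf30 : Squarefree (30 : ℕ) := by
  have : (30 : ℕ) = 2 * (3 * 5) := by norm_num
  rw [this, Nat.squarefree_mul (by norm_num), Nat.squarefree_mul (by norm_num)]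
  exact ⟨Nat.prime_two.prime.squarefree, Nat.prime_three.prime.squarefree,
    (Nat.Prime.prime (by norm_num : Nat.Prime 5)).squarefree⟩

theorem solv60 (K : Type*) [Group K] [Finite K] (h : Nat.card K ∣ 60) (h2 : Nat.card K ≠ 60) :
    Group.IsSolvable K := by
  have hc : Nat.card K ∣ 30 ∨ Nat.card K = 4 ∨ Nat.card K = 12 ∨ Nat.card K = 20 := by
    generalize Nat.card K = c at *
    have := Nat.le_of_dvd (by norm_num) h
    interval_cases c <;> first | (exfalso; revert h; decide) | (exfalso; exact h2 rfl) | decide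
  rcases hc with hc | hc | hc | hc
  · exact solv1 K (Or.inl (sqf30.squarefree_of_dvd hc))
  · exact solv1 K (Or.inr hc)
  · haveI : Fact (Nat.Prime 2) := ⟨by norm_num⟩
    obtain ⟨H, hH⟩ := Sylow.exists_subgroup_card_pow_prime (G := K) 2 (n := 2) (by rw [hc]; norm_num)
    have hi : H.index = 3 := by
      have := H.card_mul_index
      rw [hH, hc] at this; omega
    refine solv_act K H (solv1 _ (Or.inr (by rw [hH]; norm_num))) 6 (by norm_num) ?_
    intro r h1 _
    rw [hi] at h1; exact h1
  · haveI : Fact (Nat.Prime 5) := ⟨by norm_num⟩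
    obtain ⟨H, hH⟩ := Sylow.exists_subgroup_card_pow_prime (G := K) 5 (n := 1) (by rw [hc]; norm_num)
    have hi : H.index = 4 := by
      have := H.card_mul_index
      rw [hH, hc] at this; omega
    refine solv_act K H (solv_dvd _ 5 (by rw [hH]; norm_num) (by norm_num)) 4 (by norm_num) ?_
    intro r h1 h3
    rw [hi] at h1; rw [hc] at h3
    have := Nat.dvd_gcd h1 h3
    simpa [Nat.factorial] using this

theorem exists_central (G : Type*) [Group G] [Finite G] (hc : Nat.card G = 3660)
    (hs : ¬ Group.IsSolvable G) :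
    ∃ P : Subgroup G, Nat.card P = 61 ∧ ∀ p ∈ P, ∀ g : G, g * p = p * g := by
  classical
  haveI : Fact (Nat.Prime 61) := ⟨by norm_num⟩
  obtain ⟨P⟩ : Nonempty (Sylow 61 G) := inferInstance
  have hP : Nat.card P = 61 := by
    rw [Sylow.card_eq_multiplicity, hc]
    have : (3660 : ℕ) = 61 ^ 1 * 60 := by norm_num
    have h3 : (Nat.factorization 3660) 61 = 1 := by
      rw [this, Nat.factorization_mul (by norm_num) (by norm_num), Nat.Prime.factorization_pow (by norm_num)]
      simp [Nat.factorization_eq_zero_of_lt]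
    rw [h3]; norm_num
  have hi : (P : Subgroup G).index = 60 := by
    have := (P : Subgroup G).card_mul_index
    rw [hP, hc] at this; omega
  have hn : Nat.card (Sylow 61 G) = 1 := by
    have h1 := P.card_dvd_index
    have h2 := card_sylow_modEq_one 61 G
    rw [hi] at h1
    have := Nat.le_of_dvd (by norm_num) h1
    unfold Nat.ModEq at h2
    omega
  haveI : Subsingleton (Sylow 61 G) := (Nat.card_eq_one_iff_unique.mp hn).1
  haveI : (P : Subgroup G).Normal := Sylow.normal_of_subsingleton P
  haveI : IsCyclic (P : Subgroup G) := isCyclic_of_prime_card hP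
  let φ : G →* MulAut (P : Subgroup G) := MulAut.conjNormal
  haveI : Group.IsSolvable (MulAut (P : Subgroup G)) := by
    refine Group.isSolvable_of_comm ?_
    intro a b
    apply (IsCyclic.mulAutMulEquiv (P : Subgroup G)).injective
    rw [map_mul, map_mul, mul_comm]
  have hC : ¬ Group.IsSolvable φ.ker := by
    intro h
    exact hs (Group.isSolvable_of_ker_le_range φ.ker.subtype φ (by rw [Subgroup.range_subtype]))
  have hPC : (P : Subgroup G) ≤ φ.ker := by
    intro p hp
    rw [MonoidHom.mem_ker]
    ext q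
    have := IsCyclic.commGroup (α := (P : Subgroup G))
    have h4 : (⟨p, hp⟩ : (P : Subgroup G)) * q = q * ⟨p, hp⟩ :=
      (IsCyclic.commGroup (α := (P : Subgroup G))).mul_comm _ _
    have h5 : p * (q : G) = q * p := congrArg Subtype.val h4
    simp [φ, h5]
  have htop : φ.ker = ⊤ := by
    by_contra hne
    apply hC
    let K := φ.ker.map (QuotientGroup.mk' (P : Subgroup G))
    have hq : Nat.card (G ⧸ (P : Subgroup G)) = 60 := hi
    have hK1 : Nat.card K ∣ 60 := hq ▸ Subgroup.card_subgroup_dvd_card K
    have hK2 : Nat.card K ≠ 60 := by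
      intro h
      have hK : K = ⊤ := Subgroup.eq_top_of_card_eq K (by rw [h, hq])
      apply hne
      have := congrArg (Subgroup.comap (QuotientGroup.mk' (P : Subgroup G))) hK
      rw [Subgroup.comap_map_eq, QuotientGroup.ker_mk', sup_eq_left.mpr hPC] at this
      simpa using this
    haveI : Group.IsSolvable K := solv60 K hK1 hK2
    haveI : Group.IsSolvable (P : Subgroup G) := solv_dvd _ 61 (by rw [hP]) (by norm_num)
    refine Group.isSolvable_of_ker_le_range (Subgroup.inclusion hPC)
      ((QuotientGroup.mk' (P : Subgroup G)).subgroupMap φ.ker) ?_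
    intro x hx
    rw [MonoidHom.mem_ker] at hx
    have h6 : (QuotientGroup.mk' (P : Subgroup G)) x.1 = 1 := congrArg Subtype.val hx
    have h7 : x.1 ∈ (P : Subgroup G) := (QuotientGroup.eq_one_iff _).mp h6
    exact ⟨⟨x.1, h7⟩, rfl⟩
  refine ⟨P, hP, ?_⟩
  intro p hp g
  have h8 : g ∈ φ.ker := htop ▸ Subgroup.mem_top g
  rw [MonoidHom.mem_ker] at h8
  have h9 : ((φ g ⟨p, hp⟩ : (P : Subgroup G)) : G) = p := by rw [h8]; rfl
  have h10 : g * p * g⁻¹ = p := by simpa [φ] using h9
  calc g * p = (g * p * g⁻¹) * g := by group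
    _ = p * g := by rw [h10]

theorem count_le (G : Type*) [Group G] [Fintype G] (hc : Fintype.card G = 3660)
    (hs : ¬ Group.IsSolvable G) :
    (Finset.univ.filter (fun g : G => orderOf g ≤ 60)).card ≤ 60 := by
  classical
  obtain ⟨P, hP, hcen⟩ := exists_central G (by rw [Nat.card_eq_fintype_card, hc]) hs
  have hi : P.index = 60 := by
    have := P.card_mul_index
    rw [hP, Nat.card_eq_fintype_card, hc] at this; omega
  have hq : Fintype.card (G ⧸ P) = 60 := by rw [← Nat.card_eq_fintype_card]; exact hi
  refine le_trans ?_ (le_of_eq hq)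
  rw [← Finset.card_univ]
  refine Finset.card_le_card_of_injOn (fun g => (g : G ⧸ P)) (fun _ _ => by simp) ?_
  intro g hg h hh hgh
  simp only [Finset.coe_filter, Finset.mem_univ, true_and, Set.mem_setOf_eq] at hg hh
  have h1 : g⁻¹ * h ∈ P := QuotientGroup.eq.mp hgh
  set p := g⁻¹ * h with hp
  have h2 : h = g * p := by rw [hp]; group
  have hcomm : Commute g p := hcen p h1 g
  have h3 : p ^ (orderOf g * orderOf h) = 1 := by
    have h4 : h ^ (orderOf g * orderOf h) = 1 := by rw [mul_comm, pow_mul, pow_orderOf_eq_one, one_pow]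
    have h5 : g ^ (orderOf g * orderOf h) = 1 := by rw [pow_mul, pow_orderOf_eq_one, one_pow]
    have h6 : (g * p) ^ (orderOf g * orderOf h) = 1 := by rw [← h2]; exact h4
    rw [hcomm.mul_pow, h5, one_mul] at h6
    exact h6
  have h7 : p ^ 61 = 1 := by
    have := pow_card_eq_one' (G := P) (x := ⟨p, h1⟩)
    rw [hP] at this
    exact congrArg Subtype.val this
  have h8 : orderOf p ∣ 61 := orderOf_dvd_of_pow_eq_one h7
  have h9 : orderOf p ∣ orderOf g * orderOf h := orderOf_dvd_of_pow_eq_one h3
  have hpr : Nat.Prime 61 := by norm_num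
  rcases (Nat.dvd_prime hpr).mp h8 with h10 | h10
  · rw [orderOf_eq_one_iff] at h10
    rw [h2, h10, mul_one]
  · exfalso
    rw [h10] at h9
    have g0 := orderOf_pos g
    have h0 := orderOf_pos h
    rcases (Nat.Prime.dvd_mul hpr).mp h9 with h11 | h11
    · have := Nat.le_of_dvd g0 h11; omega
    · have := Nat.le_of_dvd h0 h11; omega

end Pool.Agent.H.MP_e15593_al
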